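import Pool.Agent.Helper14.LE.St

/-!
Project LE, module COR: Lagrangians in `ℝ⁶` transverse to a fixed three-dimensional subspace.
-/

set_option autoImplicit false

namespace Pool.Agent.Helper79.LE

open Pool.Agent.Helper14.LK Pool.Agent.Helper14.LE
open scoped ContDiff Topology
open MeasureTheory Set Filter

/-- a vector in the kernel of the restriction of the form to a three-dimensional subspace -/
private theorem cor_ker {n : ℕ} (W : Submodule ℝ (WW n)) (hW : Module.finrank ℝ W = 3) :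
    ∃ r ∈ W, r ≠ 0 ∧ ∀ w ∈ W, om r w = 0 := by
  have b : Module.Basis (Fin 3) ℝ W := Module.finBasisOfFinrankEq ℝ W hW
  obtain ⟨e, he⟩ : ∃ e : Fin 3 → WW n, e = fun i => ((b i : W) : WW n) := ⟨_, rfl⟩
  have hmem : ∀ i, e i ∈ W := fun i => by rw [he]; exact (b i).2
  have hrep : ∀ w ∈ W, ∃ x y z : ℝ, w = x • e 0 + y • e 1 + z • e 2 := by
    intro w hw
    have h := b.sum_repr ⟨w, hw⟩
    rw [Fin.sum_univ_three] at h
    refine ⟨b.repr ⟨w, hw⟩ 0, b.repr ⟨w, hw⟩ 1, b.repr ⟨w, hw⟩ 2, ?_⟩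
    have h' := congrArg (fun t : W => (t : WW n)) h
    simp only [Submodule.coe_add, Submodule.coe_smul] at h'
    rw [he]
    exact h'.symm
  have hind : ∀ x y z : ℝ, x • e 0 + y • e 1 + z • e 2 = 0 → x = 0 ∧ y = 0 ∧ z = 0 := by
    intro x y z h
    have h1 := Fintype.linearIndependent_iff.1 b.linearIndependent ![x, y, z] (by
      rw [Fin.sum_univ_three]
      apply Subtype.ext
      rw [he] at h
      simpa using h)
    exact ⟨h1 0, h1 1, h1 2⟩
  obtain ⟨p, hp⟩ : ∃ p : ℝ, om (e 1) (e 2) = p := ⟨_, rfl⟩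
  obtain ⟨q, hq⟩ : ∃ q : ℝ, om (e 2) (e 0) = q := ⟨_, rfl⟩
  obtain ⟨s, hs⟩ : ∃ s : ℝ, om (e 0) (e 1) = s := ⟨_, rfl⟩
  have hp' : om (e 2) (e 1) = -p := by rw [om_antisymm, hp]
  have hq' : om (e 0) (e 2) = -q := by rw [om_antisymm, hq]
  have hs' : om (e 1) (e 0) = -s := by rw [om_antisymm, hs]
  by_cases h0 : p = 0 ∧ q = 0 ∧ s = 0
  · obtain ⟨h1, h2, h3⟩ := h0
    refine ⟨e 0, hmem 0, ?_, ?_⟩
    · intro h
      have := hind 1 0 0 (by rw [h]; simp)
      exact one_ne_zero this.1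
    · intro w hw
      obtain ⟨x, y, z, rfl⟩ := hrep w hw
      rw [om_add_right, om_add_right, om_smul_right, om_smul_right, om_smul_right, om_self, hs,
        hq', h2, h3]
      ring
  · refine ⟨p • e 0 + q • e 1 + s • e 2, ?_, fun h => h0 (hind _ _ _ h), ?_⟩
    · exact W.add_mem (W.add_mem (W.smul_mem _ (hmem 0)) (W.smul_mem _ (hmem 1)))
        (W.smul_mem _ (hmem 2))
    · intro w hw
      obtain ⟨x, y, z, rfl⟩ := hrep w hw
      simp only [om_add_right, om_smul_right, om_add_left, om_smul_left, om_self, hs, hq', hp,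
        hp', hq, hs']
      ring

/-- an isotropic plane in a three-dimensional subspace -/
private theorem cor_plane {n : ℕ} (W : Submodule ℝ (WW n)) (hW : Module.finrank ℝ W = 3) :
    ∃ V : Submodule ℝ (WW n), V ≤ W ∧ 2 ≤ Module.finrank ℝ V ∧
      ∀ a ∈ V, ∀ b ∈ V, om a b = 0 := by
  obtain ⟨r, hr, hr0, hrw⟩ := cor_ker W hW
  obtain ⟨s, hs, hsr⟩ : ∃ s ∈ W, s ∉ Submodule.span ℝ {r} := by
    by_contra hcon
    push Not at hcon
    have h1 : W ≤ Submodule.span ℝ {r} := hcon
    have h2 := Submodule.finrank_mono h1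
    rw [finrank_span_singleton hr0, hW] at h2
    omega
  refine ⟨Submodule.span ℝ {r, s}, ?_, ?_, ?_⟩
  · rw [Submodule.span_le]
    rintro x (rfl | rfl)
    · exact hr
    · exact hs
  · have hlt : Submodule.span ℝ {r} < Submodule.span ℝ {r, s} := by
      refine lt_of_le_of_ne (Submodule.span_mono (by simp)) ?_
      intro h
      apply hsr
      rw [h]
      exact Submodule.subset_span (by simp)
    have := Submodule.finrank_lt_finrank_of_lt hlt
    rw [finrank_span_singleton hr0] at this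
    omega
  · intro a ha b hb
    obtain ⟨x, y, rfl⟩ := Submodule.mem_span_pair.1 ha
    obtain ⟨x', y', rfl⟩ := Submodule.mem_span_pair.1 hb
    have h1 : om r s = 0 := hrw s hs
    have h2 : om s r = 0 := by rw [om_antisymm, h1, neg_zero]
    simp only [om_add_right, om_smul_right, om_add_left, om_smul_left, om_self, h1, h2]
    ring

/-- the projection along a complement of the plane -/
private theorem cor_proj {n : ℕ} (W : Submodule ℝ (WW n)) (hW : Module.finrank ℝ W = n)
    (h0 : ∀ u : EE n, ((u, 0) : WW n) ∈ W → u = 0) :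
    ∃ π : WW n →L[ℝ] EE n, (∀ x, π (x, 0) = x) ∧ ∀ w, π w = 0 ↔ w ∈ W := by
  obtain ⟨L, hL⟩ : ∃ L : (EE n × W) →ₗ[ℝ] WW n, ∀ p, L p = (p.1, 0) + (p.2 : WW n) := by
    refine ⟨(LinearMap.inl ℝ (EE n) (EE n)).coprod W.subtype, fun p => ?_⟩
    simp
  have hinj : Function.Injective L := by
    rw [injective_iff_map_eq_zero]
    rintro ⟨x, w⟩ h
    rw [hL] at h
    have h1 : ((x, 0) : WW n) ∈ W := by
      have : ((x, 0) : WW n) = -(w : WW n) := eq_neg_of_add_eq_zero_left h
      rw [this]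
      exact W.neg_mem w.2
    have h2 := h0 x h1
    subst h2
    have h3 : (w : WW n) = 0 := by
      have h5 : (((0 : EE n), (0 : EE n)) : WW n) = 0 := rfl
      have h6 : (((0 : EE n), (0 : EE n)) : WW n) + (w : WW n) = 0 := h
      rw [h5, zero_add] at h6
      exact h6
    have h4 : w = 0 := Subtype.ext h3
    rw [h4]
    rfl
  have hfr : Module.finrank ℝ (EE n × W) = Module.finrank ℝ (WW n) := by
    rw [Module.finrank_prod, Module.finrank_prod, hW, finrank_euclideanSpace, Fintype.card_fin]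
  let Le := LinearEquiv.ofInjectiveOfFinrankEq L hinj hfr
  have hLe : ∀ p, Le p = L p := fun p => rfl
  refine ⟨LinearMap.toContinuousLinearMap ((LinearMap.fst ℝ (EE n) W).comp Le.symm.toLinearMap),
    ?_, ?_⟩
  · intro x
    have h : Le (x, 0) = (x, 0) := by rw [hLe, hL]; simp
    have h' : Le.symm (x, 0) = (x, 0) := by rw [LinearEquiv.symm_apply_eq, h]
    change (Le.symm (x, 0)).1 = x
    rw [h']
  · intro w
    change (Le.symm w).1 = 0 ↔ w ∈ W
    constructor
    · intro h
      have h1 : w = Le (Le.symm w) := (Le.apply_symm_apply w).symm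
      rw [h1, hLe, hL, h]
      have h5 : (((0 : EE n), (0 : EE n)) : WW n) = 0 := rfl
      rw [h5, zero_add]
      exact (Le.symm w).2.2
    · intro h
      have h1 : Le (0, ⟨w, h⟩) = w := by rw [hLe, hL]; simp
      have h2 : Le.symm w = (0, ⟨w, h⟩) := by rw [LinearEquiv.symm_apply_eq, h1]
      rw [h2]

theorem hCOR (hT : StT) (hBIJ : StBIJ) : StCOR := by
  intro W hW ι hι hiso hstd himm
  obtain ⟨R, hR⟩ := id hstd
  have hplane : ∀ u : EE 3, ((u, 0) : WW 3) ∈ W → u = 0 := by
    intro u hu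
    by_contra hne
    have hn0 : 0 < ‖u‖ := norm_pos_iff.mpr hne
    obtain ⟨m, hm⟩ := exists_gt ((|R| + 1) / ‖u‖)
    obtain ⟨x, hx⟩ : ∃ x : EE 3, x = m • u := ⟨_, rfl⟩
    have hm0 : 0 < m := lt_of_le_of_lt (by positivity) hm
    have hxR : R < ‖x‖ := by
      rw [hx, norm_smul, Real.norm_eq_abs, abs_of_pos hm0]
      rw [div_lt_iff₀ hn0] at hm
      linarith [le_abs_self R]
    have hev : ι =ᶠ[𝓝 x] fun x => ((x, 0) : WW 3) := by
      filter_upwards [(isOpen_lt continuous_const continuous_norm).mem_nhds hxR] with y hy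
      exact hR y (le_of_lt hy)
    have hd1 : HasFDerivAt (fun x : EE 3 => ((x, 0) : WW 3))
        ((ContinuousLinearMap.id ℝ (EE 3)).prod 0) x :=
      (hasFDerivAt_id x).prodMk (hasFDerivAt_const (0 : EE 3) x)
    have hd2 : fderiv ℝ ι x u = (u, 0) := by
      rw [hev.fderiv_eq, hd1.fderiv]; rfl
    exact hne (himm x u (by rw [hd2]; exact hu))
  obtain ⟨π, hπ1, hπ2⟩ := cor_proj W hW hplane
  obtain ⟨Fi, -, -, hFi⟩ := hBIJ (EE 3) (fun _ x => π (ι x))
    (π.contDiff.comp (hι.comp contDiff_snd)) (by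
      intro r v a h
      apply himm v a
      rw [← hπ2]
      have h1 : HasFDerivAt (fun x => π (ι x)) (π.comp (fderiv ℝ ι v)) v :=
        π.hasFDerivAt.comp v (hι.differentiable (by simp) v).hasFDerivAt
      rw [h1.fderiv] at h
      exact h) R (by
      intro r v hv
      show π (ι v) = v
      rw [hR v hv, hπ1])
  obtain ⟨V, hVW, hV2, hViso⟩ := cor_plane W hW
  refine hT 3 (by norm_num) V hViso (by omega) ι hι hiso hstd
    (fun x u h => himm x u (hVW h)) ?_
  intro x x' h
  have h1 : π (ι x - ι x') = 0 := (hπ2 _).2 (hVW h)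
  have h2 : π (ι x) = π (ι x') := by
    rw [map_sub] at h1
    exact sub_eq_zero.1 h1
  have h3 : Fi 0 (π (ι x)) = x := hFi 0 x
  have h4 : Fi 0 (π (ι x')) = x' := hFi 0 x'
  rw [h2, h4] at h3
  exact h3.symm

end Pool.Agent.Helper79.LE
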